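import Pool.Agent.Helper63.J.Lower
import Pool.Agent.Helper80.J.Defs
import Pool.Agent.Lead.IP.ValueB

/-!
The T-junction: the vectors of the three pieces are the vectors `V` of the inhomogeneous theorem.
-/

set_option autoImplicit false

namespace H47Perc.JJ
open Finset H47Perc.DS H47Perc.SL

/-- the homogeneous parameters: `0` on the first `2c+1` strands, `π/6` on the other ones -/
noncomputable def bD (c : ℕ) : ℕ → ℝ := fun j => if j < 2 * c + 1 then 0 else Real.pi / 6

/-- two new strands `π/6` on the left -/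
noncomputable def cc (b : ℕ → ℝ) : ℕ → ℝ := fun j => if j < 2 then Real.pi / 6 else b (j - 2)

/-- the strand `a` (equal to `π/6`) is moved over `r` strands `0` -/
noncomputable def mvR (a r : ℕ) (b : ℕ → ℝ) : ℕ → ℝ := fun j =>
  if j < a then b j else if j < a + r then 0 else if j = a + r then Real.pi / 6 else b j

lemma vj_congr (n : ℕ) {b b' : ℕ → ℝ} (h : ∀ j < 2 * n + 1, b j = b' j) : IP.V n b = IP.V n b' := by
  ext σ
  exact (IP.V_Sep n σ).2 b b' h

lemma vj_s_pi_six : IP.s (Real.pi / 6) = 1 := by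
  unfold IP.s
  rw [show Real.pi / 3 + Real.pi / 6 = Real.pi / 2 by ring, Real.sin_pi_div_two]

lemma vj_Rt {n i : ℕ} (h : i + 1 ≤ 2 * n) {b : ℕ → ℝ} (h1 : b i = Real.pi / 6) (h2 : b (i + 1) = 0) :
    IP.Rt i (Real.pi / 6) (IP.V n b) = IP.V n (IP.sw i b) := by
  have h3 := IP.V_sw h b
  rw [h1, h2, sub_zero, vj_s_pi_six, one_smul] at h3
  exact h3.symm

lemma vj_upR {n : ℕ} (a : ℕ) {b : ℕ → ℝ} (h1 : b a = Real.pi / 6) : ∀ r : ℕ, a + r ≤ 2 * n →
    (∀ j, a < j → j ≤ a + r → b j = 0) → upR a r (IP.V n b) = IP.V n (mvR a r b) := by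
  intro r
  induction r with
  | zero =>
    intro _ _
    change IP.V n b = _
    apply vj_congr
    intro j _
    unfold mvR
    by_cases h2 : j < a
    · rw [if_pos h2]
    · rw [if_neg h2, if_neg (by omega)]
      by_cases h3 : j = a
      · rw [if_pos (by omega), h3, h1]
      · rw [if_neg (by omega)]
  | succ r ih =>
    intro hn h2
    change IP.Rt (a + r) (Real.pi / 6) (upR a r (IP.V n b)) = _
    rw [ih (by omega) (fun j hj hj' => h2 j hj (by omega)), vj_Rt (by omega) ?_ ?_]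
    · apply vj_congr
      intro j _
      unfold IP.sw mvR
      by_cases e1 : j = a + r
      · rw [e1, Equiv.swap_apply_left, if_neg (by omega), if_neg (by omega), if_neg (by omega),
          if_neg (by omega), if_pos (by omega), h2 _ (by omega) (by omega)]
      · by_cases e2 : j = a + r + 1
        · rw [e2, Equiv.swap_apply_right, if_neg (by omega), if_neg (by omega), if_pos rfl,
            if_neg (by omega), if_neg (by omega), if_pos (by omega)]
        · rw [Equiv.swap_apply_of_ne_of_ne e1 e2]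
          by_cases e3 : j < a
          · rw [if_pos e3, if_pos e3]
          · rw [if_neg e3, if_neg e3]
            by_cases e4 : j < a + r
            · rw [if_pos e4, if_pos (by omega)]
            · rw [if_neg e4, if_neg e1, if_neg (by omega), if_neg (by omega)]
    · unfold mvR
      rw [if_neg (by omega), if_neg (by omega), if_pos rfl]
    · unfold mvR
      rw [if_neg (by omega), if_neg (by omega), if_neg (by omega)]
      exact h2 _ (by omega) (by omega)

lemma vj_KK_pos (n : ℕ) {b : ℕ → ℝ} (hb : ∀ j, |b j| ≤ Real.pi / 6) :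
    0 < IP.KK n (-(Real.pi / 6)) b := by
  unfold IP.KK
  apply Finset.prod_pos
  intro j _
  have h := abs_le.1 (hb j)
  have hpi := Real.pi_pos
  apply mul_pos
  · unfold IP.s
    exact Real.sin_pos_of_pos_of_lt_pi (by linarith [h.1]) (by linarith [h.2])
  · unfold IP.s
    exact Real.sin_pos_of_pos_of_lt_pi (by linarith [h.2]) (by linarith [h.1])

lemma vj_In (n : ℕ) (b : ℕ → ℝ) :
    IP.V (n + 1) (cc b) = IP.KK n (-(Real.pi / 6)) b • IP.In 0 (IP.V n b) := by
  rw [← IP.V_all (by omega : 0 + 1 ≤ 2 * n + 2) b (-(Real.pi / 6)), ← IP.V_ngL (n + 1) (IP.ins2 0 _ b)]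
  apply vj_congr
  intro j _
  unfold cc IP.ng
  by_cases h0 : j = 0
  · subst h0
    rw [if_pos (by omega), Function.update_self, IP.ins2_self, neg_neg]
  · rw [Function.update_of_ne h0]
    by_cases h1 : j = 1
    · subst h1
      rw [if_pos (by omega), show (1 : ℕ) = 0 + 1 by rfl, IP.ins2_succ]
      ring
    · obtain ⟨k, rfl⟩ : ∃ k, j = k + 2 := ⟨j - 2, by omega⟩
      rw [if_neg (by omega), IP.ins2_ge (Nat.zero_le k), Nat.add_sub_cancel]

lemma abs_bD (c j : ℕ) : |bD c j| ≤ Real.pi / 6 := by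
  have hpi := Real.pi_pos
  unfold bD
  split_ifs
  · rw [abs_zero]
    positivity
  · rw [abs_of_pos (by positivity)]

/-- the two vectors are proportional -/
def Pr (u w : IP.M) : Prop := ∃ x : ℝ, u = x • w

lemma Pr.lin {u w : IP.M} (h : Pr u w) (l : IP.M →ₗ[ℝ] IP.M) : Pr (l u) (l w) := by
  obtain ⟨x, rfl⟩ := h
  exact ⟨x, map_smul _ _ _⟩

lemma Pr.trans {u w z : IP.M} (h : Pr u w) (h' : Pr w z) : Pr u z := by
  obtain ⟨x, rfl⟩ := h
  obtain ⟨y, rfl⟩ := h'
  exact ⟨x * y, smul_smul _ _ _⟩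

lemma Pr.norm {u : IP.M} {n : ℕ} {b : ℕ → ℝ} (h : Pr u (IP.V n b)) (hu : IP.tot u = 1) :
    IP.Z n b ≠ 0 ∧ u = (IP.Z n b)⁻¹ • IP.V n b := by
  obtain ⟨x, rfl⟩ := h
  rw [map_smul, smul_eq_mul] at hu
  change x * IP.Z n b = 1 at hu
  have h1 : IP.Z n b ≠ 0 := right_ne_zero_of_mul_eq_one hu
  refine ⟨h1, ?_⟩
  rw [← eq_inv_of_mul_eq_one_left hu]

lemma pr_In (n : ℕ) {b : ℕ → ℝ} (hb : ∀ j, |b j| ≤ Real.pi / 6) :
    Pr (IP.In 0 (IP.V n b)) (IP.V (n + 1) (cc b)) := by
  refine ⟨(IP.KK n (-(Real.pi / 6)) b)⁻¹, ?_⟩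
  rw [vj_In, smul_smul, inv_mul_cancel₀ (vj_KK_pos n hb).ne', one_smul]

/-- the first sweep -/
lemma vj_row1 (c k : ℕ) : upR 1 (2 * c + 1) (IP.V (c + k + 1) (cc (bD c))) =
    IP.V (c + k + 1) (mvR 1 (2 * c + 1) (cc (bD c))) := by
  apply vj_upR
  · unfold cc
    rw [if_pos (by omega)]
  · omega
  · intro j h1 h2
    unfold cc bD
    rw [if_neg (by omega), if_pos (by omega)]

lemma vj_mv (c : ℕ) (j : ℕ) : mvR 1 (2 * c + 1) (cc (bD c)) j =
    if j = 0 then Real.pi / 6 else if j < 2 * c + 2 then 0 else Real.pi / 6 := by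
  unfold mvR cc bD
  by_cases h0 : j = 0
  · subst h0
    simp
  · rw [if_neg (by omega), if_neg h0]
    by_cases h1 : j < 2 * c + 2
    · rw [if_pos (by omega), if_pos h1]
    · rw [if_neg (by omega), if_neg h1]
      by_cases h2 : j = 1 + (2 * c + 1)
      · rw [if_pos h2]
      · rw [if_neg h2, if_neg (by omega), if_neg (by omega)]

/-- the second sweep -/
lemma vj_row2 (c k r : ℕ) (hr : r ≤ 2 * c + 1) :
    upR 0 r (IP.V (c + k + 1) (mvR 1 (2 * c + 1) (cc (bD c)))) =
      IP.V (c + k + 1) (IP.Junc.ins1 r (Real.pi / 6) (bD c)) := by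
  rw [vj_upR]
  · apply vj_congr
    intro j _
    unfold mvR IP.Junc.ins1
    rw [if_neg (by omega), zero_add]
    by_cases h1 : j < r
    · rw [if_pos h1, if_pos h1]
      unfold bD
      rw [if_pos (by omega)]
    · rw [if_neg h1, if_neg h1]
      by_cases h2 : j = r
      · rw [if_pos h2, if_pos h2]
      · rw [if_neg h2, if_neg h2]
        change mvR 1 (2 * c + 1) (cc (bD c)) j = _
        rw [vj_mv]
        unfold bD
        rw [if_neg (by omega)]
        by_cases h3 : j < 2 * c + 2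
        · rw [if_pos h3, if_pos (by omega)]
        · rw [if_neg h3, if_neg (by omega)]
  · rw [vj_mv, if_pos rfl]
  · omega
  · intro j h1 h2
    rw [vj_mv, if_neg (by omega), if_pos (by omega)]

lemma vj_DD (c k : ℕ) : Pr (DD c (IP.V (c + k) (bD c))) (IP.V (c + (k + 1)) (bD c)) := by
  unfold DD
  rw [LinearMap.comp_apply, LinearMap.comp_apply]
  have h1 := ((pr_In (c + k) (abs_bD c)).lin (upR 1 (2 * c + 1))).lin (upR 0 (2 * c + 1))
  rw [vj_row1, vj_row2 c k _ le_rfl] at h1
  have e : IP.V (c + k + 1) (IP.Junc.ins1 (2 * c + 1) (Real.pi / 6) (bD c)) =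
      IP.V (c + (k + 1)) (bD c) := by
    apply vj_congr
    intro j _
    unfold IP.Junc.ins1
    by_cases h1 : j < 2 * c + 1
    · rw [if_pos h1]
    · rw [if_neg h1]
      unfold bD
      by_cases h2 : j = 2 * c + 1
      · rw [if_pos h2, if_neg h1]
      · rw [if_neg h2, if_neg (by omega), if_neg (by omega)]
  rw [e] at h1
  exact h1

lemma vj_P (n : ℕ) {b : ℕ → ℝ} (hb : ∀ j < 2 * n + 1, b j = 0) :
    IP.Z n b ≠ 0 ∧ IP.P n zb = (IP.Z n b)⁻¹ • IP.V n b := by
  have h1 : IP.V n b = IP.V n zb := vj_congr n hb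
  have h2 : IP.Z n b = IP.Z n zb := by
    unfold IP.Z
    rw [h1]
  rw [h1, h2]
  exact ⟨IP.Z_ne n IP.zero_Cube, IP.P_eq n IP.zero_Cube⟩

lemma vj_DD_pow (c q : ℕ) : Pr ((DD c ^ q) (IP.P c zb)) (IP.V (c + q) (bD c)) := by
  induction q with
  | zero =>
    rw [pow_zero, Module.End.one_apply, (vj_P c (b := bD c) (fun j hj => if_pos hj)).2]
    exact ⟨_, rfl⟩
  | succ q ih =>
    rw [pow_succ', Module.End.mul_apply]
    exact (ih.lin (DD c)).trans (vj_DD c q)

lemma tot_upR (a r : ℕ) (v : IP.M) : IP.tot (upR a r v) = IP.tot v := by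
  induction r with
  | zero => rfl
  | succ r ih =>
    change IP.tot (IP.Rt (a + r) (Real.pi / 6) (upR a r v)) = _
    rw [IP.tot_Rt, vj_s_pi_six, one_mul, ih]

lemma tot_DD_pow (c q : ℕ) (v : IP.M) : IP.tot ((DD c ^ q) v) = IP.tot v := by
  induction q with
  | zero => rfl
  | succ q ih =>
    rw [pow_succ', Module.End.mul_apply]
    unfold DD at ih ⊢
    rw [LinearMap.comp_apply, LinearMap.comp_apply, tot_upR, tot_upR, IP.tot_In, ih]

/-- **The vector of the lower piece.** -/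
theorem low_vec (m p q : ℕ) :
    IP.Z (m + (p + q) + 1) (IP.Junc.ins1 (2 * m + 1) (Real.pi / 6) (bD (m + p))) ≠ 0 ∧
    upR 0 (2 * m + 1) (upR 1 (2 * (m + p) + 1) (IP.In 0 ((DD (m + p) ^ q) (IP.P (m + p) zb)))) =
      (IP.Z (m + (p + q) + 1) (IP.Junc.ins1 (2 * m + 1) (Real.pi / 6) (bD (m + p))))⁻¹ •
        IP.V (m + (p + q) + 1) (IP.Junc.ins1 (2 * m + 1) (Real.pi / 6) (bD (m + p))) := by
  rw [show m + (p + q) + 1 = m + p + q + 1 by ring]
  apply Pr.norm
  · have h1 := (vj_DD_pow (m + p) q).lin (IP.In 0)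
    have h2 := ((h1.trans (pr_In (m + p + q) (abs_bD (m + p)))).lin (upR 1 (2 * (m + p) + 1))).lin
      (upR 0 (2 * m + 1))
    rw [vj_row1, vj_row2 (m + p) q _ (by omega)] at h2
    exact h2
  · rw [tot_upR, tot_upR, IP.tot_In, tot_DD_pow]
    exact IP.tot_P _ IP.zero_Cube

/-- `π/6` on the first `2p` strands -/
noncomputable def iR (p : ℕ) : ℕ → ℝ := fun j => if j < 2 * p then Real.pi / 6 else 0

lemma abs_iR (p j : ℕ) : |iR p j| ≤ Real.pi / 6 := by
  have hpi := Real.pi_pos
  unfold iR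
  split_ifs
  · rw [abs_of_pos (by positivity)]
  · rw [abs_zero]
    positivity

lemma vj_In_pow (p q : ℕ) : Pr ((IP.In 0 ^ p) (IP.P q zb)) (IP.V (q + p) (iR p)) := by
  induction p with
  | zero =>
    rw [pow_zero, Module.End.one_apply, (vj_P q (b := iR 0) (fun j _ => if_neg (by omega))).2]
    exact ⟨_, rfl⟩
  | succ p ih =>
    rw [pow_succ', Module.End.mul_apply]
    have h1 := (ih.lin (IP.In 0)).trans (pr_In (q + p) (abs_iR p))
    have e : IP.V (q + p + 1) (cc (iR p)) = IP.V (q + (p + 1)) (iR (p + 1)) := by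
      apply vj_congr
      intro j _
      unfold cc iR
      by_cases h1 : j < 2
      · rw [if_pos h1, if_pos (by omega)]
      · rw [if_neg h1]
        by_cases h2 : j < 2 * (p + 1)
        · rw [if_pos h2, if_pos (by omega)]
        · rw [if_neg h2, if_neg (by omega)]
    rw [e] at h1
    exact h1

lemma tot_In_pow (p : ℕ) (v : IP.M) : IP.tot ((IP.In 0 ^ p) v) = IP.tot v := by
  induction p with
  | zero => rfl
  | succ p ih => rw [pow_succ', Module.End.mul_apply, IP.tot_In, ih]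

/-- **The vector of the right leg.** -/
theorem right_vec (m p q : ℕ) :
    IP.Z (p + q) (fun j => Real.pi / 6 - bD (m + p) (2 * m + 1 + j)) ≠ 0 ∧
    (IP.In 0 ^ p) (IP.P q zb) =
      (IP.Z (p + q) (fun j => Real.pi / 6 - bD (m + p) (2 * m + 1 + j)))⁻¹ •
        IP.V (p + q) (fun j => Real.pi / 6 - bD (m + p) (2 * m + 1 + j)) := by
  apply Pr.norm
  · have h1 := vj_In_pow p q
    rw [add_comm q p] at h1
    have e : iR p = (fun j => Real.pi / 6 - bD (m + p) (2 * m + 1 + j)) := by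
      funext j
      unfold iR bD
      by_cases h : j < 2 * p
      · rw [if_pos h, if_pos (by omega), sub_zero]
      · rw [if_neg h, if_neg (by omega), sub_self]
    rw [e] at h1
    exact h1
  · rw [tot_In_pow]
    exact IP.tot_P _ IP.zero_Cube

/-- **The vector of the upper leg.** -/
theorem up_vec (m p : ℕ) :
    IP.Z m (fun j => -bD (m + p) j) ≠ 0 ∧
    IP.P m zb = (IP.Z m (fun j => -bD (m + p) j))⁻¹ • IP.V m (fun j => -bD (m + p) j) := by
  apply vj_P
  intro j hj
  unfold bD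
  rw [if_pos (by omega), neg_zero]

end H47Perc.JJ
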