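import Pool.Agent.Helper53.Slit.Geo

/-!
The T-junction: laws of states with a general wired set, sweeps from the left to the right.
-/

set_option autoImplicit false

namespace H47Perc.JJ
open Finset H47Perc.DS H47Perc.SL

lemma cs_mono {A : Set (ℤ × ℤ)} {ω ω' : Finset (Sym2 (ℤ × ℤ))} (h : ω ⊆ ω') : cs A ω ≤ cs A ω' := by
  rw [cs_le_iff]
  exact ⟨fun u v h' => cs_edge (h h'), fun u v h1 h2 => cs_wall h1 h2⟩

lemma cs_insert (A : Set (ℤ × ℤ)) (ω : Finset (Sym2 (ℤ × ℤ))) (u v : ℤ × ℤ) :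
    cs A (insert s(u, v) ω) = joinG u v (cs A ω) := by
  apply le_antisymm
  · rw [cs_le_iff]
    refine ⟨fun x y h => ?_, fun x y h1 h2 => Or.inl (cs_wall h1 h2)⟩
    rw [mem_insert, Sym2.eq_iff] at h
    rcases h with (⟨rfl, rfl⟩ | ⟨rfl, rfl⟩) | h
    · exact Or.inr (Or.inl ⟨(cs A ω).refl _, (cs A ω).refl _⟩)
    · exact Or.inr (Or.inr ⟨(cs A ω).refl _, (cs A ω).refl _⟩)
    · exact Or.inl (cs_edge h)
  · have hm : cs A ω ≤ cs A (insert s(u, v) ω) := cs_mono (subset_insert _ _)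
    have he : cs A (insert s(u, v) ω) u v := cs_edge (mem_insert_self _ _)
    rw [Setoid.le_def]
    rintro x y (h | ⟨h1, h2⟩ | ⟨h1, h2⟩)
    · exact hm h
    · exact Setoid.trans' _ (hm h1) (Setoid.trans' _ he (hm h2))
    · exact Setoid.trans' _ (hm h1) (Setoid.trans' _ (Setoid.symm' _ he) (hm h2))

/-- the state of the configuration seen from the front `f`, the set `A` being wired -/
def stA (A : Set (ℤ × ℤ)) (f : ℕ → ℤ × ℤ) (ω : Finset (Sym2 (ℤ × ℤ))) : IP.St :=
  Setoid.comap f (cs A ω)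

/-- the law of the state, the edges of `F` being open with probability `1/2` -/
noncomputable def lawA (A : Set (ℤ × ℤ)) (F : Finset (Sym2 (ℤ × ℤ))) (f : ℕ → ℤ × ℤ) : IP.M :=
  ∑ ω ∈ F.powerset, Finsupp.single (stA A f ω) ((1 / 2) ^ #F)

lemma stA_rel {A : Set (ℤ × ℤ)} {f : ℕ → ℤ × ℤ} {ω : Finset (Sym2 (ℤ × ℤ))} {x y : ℕ} :
    stA A f ω x y ↔ cs A ω (f x) (f y) := Iff.rfl

lemma stA_join (A : Set (ℤ × ℤ)) (f : ℕ → ℤ × ℤ) (ω : Finset (Sym2 (ℤ × ℤ))) (j k : ℕ) :
    stA A f (insert s(f j, f k) ω) = IP.join j k (stA A f ω) := by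
  unfold stA
  rw [cs_insert]
  rfl

lemma stA_detach {A : Set (ℤ × ℤ)} {f : ℕ → ℤ × ℤ} {ω : Finset (Sym2 (ℤ × ℤ))} {k : ℕ} {v : ℤ × ℤ}
    (h1 : ∀ u, s(v, u) ∉ ω) (h2 : v ∉ A) (h3 : ∀ j, j ≠ k → f j ≠ v) :
    stA A (Function.update f k v) ω = IP.detach k (stA A f ω) := by
  ext x y
  rw [stA_rel]
  change _ ↔ x = y ∨ (x ≠ k ∧ y ≠ k ∧ cs A ω (f x) (f y))
  by_cases hx : x = k
  · subst hx
    by_cases hy : y = x
    · subst hy
      simp only [Function.update_self, true_or, iff_true]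
      exact (cs A ω).refl _
    · rw [Function.update_self, Function.update_of_ne hy]
      constructor
      · intro h
        exact absurd (cs_isolated h1 h2 h) (h3 y hy)
      · rintro (h | ⟨h, _⟩)
        · exact absurd h.symm hy
        · exact absurd rfl h
  · by_cases hy : y = k
    · subst hy
      rw [Function.update_self, Function.update_of_ne hx]
      constructor
      · intro h
        exact absurd (cs_isolated h1 h2 (Setoid.symm' _ h)) (h3 x hx)
      · rintro (h | ⟨_, h, _⟩)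
        · exact absurd h hx
        · exact absurd rfl h
    · rw [Function.update_of_ne hx, Function.update_of_ne hy]
      constructor
      · intro h
        exact Or.inr ⟨hx, hy, h⟩
      · rintro (h | ⟨_, _, h⟩)
        · rw [h]
        · exact h

lemma stA_move {A : Set (ℤ × ℤ)} {f : ℕ → ℤ × ℤ} {ω : Finset (Sym2 (ℤ × ℤ))} {k : ℕ} {v : ℤ × ℤ}
    (h1 : ∀ u, s(v, u) ∉ ω) (h2 : v ∉ A) (h3 : ∀ j, f j ≠ v) :
    stA A (Function.update f k v) (insert s(f k, v) ω) = stA A f ω := by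
  have hiso : ∀ x, cs A ω v (f x) → False := fun x h => h3 x (cs_isolated h1 h2 h)
  have key : ∀ a b, joinG (f k) v (cs A ω) a b ↔
      cs A ω a b ∨ (cs A ω a (f k) ∧ cs A ω v b) ∨ (cs A ω a v ∧ cs A ω (f k) b) :=
    fun _ _ => Iff.rfl
  ext x y
  rw [stA_rel, stA_rel, cs_insert, key]
  by_cases hx : x = k
  · subst hx
    by_cases hy : y = x
    · subst hy
      simp only [Function.update_self]
      exact ⟨fun _ => (cs A ω).refl _, fun _ => Or.inl ((cs A ω).refl _)⟩
    · rw [Function.update_self, Function.update_of_ne hy]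
      constructor
      · rintro (h | ⟨_, h⟩ | ⟨_, h⟩)
        · exact (hiso _ h).elim
        · exact (hiso _ h).elim
        · exact h
      · intro h
        exact Or.inr (Or.inr ⟨(cs A ω).refl _, h⟩)
  · by_cases hy : y = k
    · subst hy
      rw [Function.update_self, Function.update_of_ne hx]
      constructor
      · rintro (h | ⟨h, _⟩ | ⟨h, _⟩)
        · exact (hiso _ (Setoid.symm' _ h)).elim
        · exact h
        · exact (hiso _ (Setoid.symm' _ h)).elim
      · intro h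
        exact Or.inr (Or.inl ⟨h, (cs A ω).refl _⟩)
    · rw [Function.update_of_ne hx, Function.update_of_ne hy]
      constructor
      · rintro (h | ⟨_, h⟩ | ⟨h, _⟩)
        · exact h
        · exact (hiso _ h).elim
        · exact (hiso _ (Setoid.symm' _ h)).elim
      · exact fun h => Or.inl h

/-- a new site at the left end -/
def cns (v : ℤ × ℤ) (f : ℕ → ℤ × ℤ) (k : ℕ) : ℤ × ℤ := if k = 0 then v else f (k - 1)

lemma stA_ins {A : Set (ℤ × ℤ)} {f : ℕ → ℤ × ℤ} {ω : Finset (Sym2 (ℤ × ℤ))} {v : ℤ × ℤ}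
    (h1 : ∀ u, s(v, u) ∉ ω) (h2 : v ∉ A) (h3 : ∀ j, f j ≠ v) :
    stA A (cns v f) ω = IP.ins 0 (stA A f ω) := by
  ext x y
  rw [stA_rel]
  unfold IP.ins
  rw [if_pos rfl]
  change _ ↔ x = y ∨ (x ≠ 0 / 2 ∧ y ≠ 0 / 2 ∧
    cs A ω (f (IP.unskip (0 / 2) x)) (f (IP.unskip (0 / 2) y)))
  unfold cns IP.unskip
  simp only [Nat.zero_div, Nat.not_lt_zero, if_false]
  by_cases hx : x = 0
  · by_cases hy : y = 0
    · rw [if_pos hx, if_pos hy]
      exact ⟨fun _ => Or.inl (hx.trans hy.symm), fun _ => (cs A ω).refl _⟩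
    · rw [if_pos hx, if_neg hy]
      constructor
      · intro h
        exact absurd (cs_isolated h1 h2 h) (h3 _)
      · rintro (h | ⟨h, _⟩)
        · exact absurd (h ▸ hx) hy
        · exact absurd hx h
  · by_cases hy : y = 0
    · rw [if_neg hx, if_pos hy]
      constructor
      · intro h
        exact absurd (cs_isolated h1 h2 (Setoid.symm' _ h)) (h3 _)
      · rintro (h | ⟨_, h, _⟩)
        · exact absurd (h ▸ hy) hx
        · exact absurd hy h
    · rw [if_neg hx, if_neg hy]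
      constructor
      · intro h
        exact Or.inr ⟨hx, hy, h⟩
      · rintro (h | ⟨_, _, h⟩)
        · rw [h]
        · exact h

/-! ### the moves on laws -/

lemma E_lawA (i : ℕ) (A : Set (ℤ × ℤ)) (F : Finset (Sym2 (ℤ × ℤ))) (f : ℕ → ℤ × ℤ) :
    IP.E i (lawA A F f) =
      ∑ ω ∈ F.powerset, Finsupp.single (IP.act i (stA A f ω)) ((1 / 2) ^ #F) := by
  unfold lawA IP.E
  rw [map_sum]
  apply sum_congr rfl
  intro ω _
  rw [Finsupp.lmapDomain_apply, Finsupp.mapDomain_single]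

lemma half_lawA (A : Set (ℤ × ℤ)) (F : Finset (Sym2 (ℤ × ℤ))) (f : ℕ → ℤ × ℤ) :
    (1 / 2 : ℝ) • lawA A F f =
      ∑ ω ∈ F.powerset, Finsupp.single (stA A f ω) ((1 / 2) ^ (#F + 1)) := by
  unfold lawA
  rw [smul_sum]
  apply sum_congr rfl
  intro ω _
  rw [Finsupp.smul_single, smul_eq_mul, pow_succ, mul_comm]

lemma lawA_insert {A : Set (ℤ × ℤ)} {F : Finset (Sym2 (ℤ × ℤ))} {e : Sym2 (ℤ × ℤ)} (he : e ∉ F)
    (f : ℕ → ℤ × ℤ) : lawA A (insert e F) f =
      ∑ ω ∈ F.powerset, Finsupp.single (stA A f ω) ((1 / 2) ^ (#F + 1)) +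
        ∑ ω ∈ F.powerset, Finsupp.single (stA A f (insert e ω)) ((1 / 2) ^ (#F + 1)) := by
  unfold lawA
  rw [sum_powerset_insert he, card_insert_of_notMem he]

lemma half_E_lawA (i : ℕ) (A : Set (ℤ × ℤ)) (F : Finset (Sym2 (ℤ × ℤ))) (f : ℕ → ℤ × ℤ) :
    (1 / 2 : ℝ) • IP.E i (lawA A F f) =
      ∑ ω ∈ F.powerset, Finsupp.single (IP.act i (stA A f ω)) ((1 / 2) ^ (#F + 1)) := by
  rw [E_lawA, smul_sum]
  apply sum_congr rfl
  intro ω _
  rw [Finsupp.smul_single, smul_eq_mul, pow_succ, mul_comm]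

lemma lawA_join {A : Set (ℤ × ℤ)} {F : Finset (Sym2 (ℤ × ℤ))} {f : ℕ → ℤ × ℤ} {k : ℕ}
    (he : s(f k, f (k + 1)) ∉ F) : lawA A (insert s(f k, f (k + 1)) F) f =
      IP.Rt (2 * k + 1) (Real.pi / 6) (lawA A F f) := by
  rw [Rt_half, lawA_insert he, half_lawA, half_E_lawA]
  congr 1
  apply sum_congr rfl
  intro ω _
  rw [stA_join, act_odd']

lemma lawA_detach {A : Set (ℤ × ℤ)} {F : Finset (Sym2 (ℤ × ℤ))} {f : ℕ → ℤ × ℤ} {k : ℕ} {v : ℤ × ℤ}
    (h1 : ∀ u, s(v, u) ∉ F) (h2 : v ∉ A) (h3 : ∀ j, f j ≠ v) :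
    lawA A (insert s(f k, v) F) (Function.update f k v) =
      IP.Rt (2 * k) (Real.pi / 6) (lawA A F f) := by
  have he : s(f k, v) ∉ F := by
    rw [Sym2.eq_swap]
    exact h1 _
  rw [Rt_half, lawA_insert he, half_lawA, half_E_lawA, add_comm]
  congr 1
  · apply sum_congr rfl
    intro ω hω
    rw [mem_powerset] at hω
    rw [stA_move (fun u h => h1 u (hω h)) h2 h3]
  · apply sum_congr rfl
    intro ω hω
    rw [mem_powerset] at hω
    rw [stA_detach (fun u h => h1 u (hω h)) h2 (fun j _ => h3 j), act_even']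

lemma lawA_ins {A : Set (ℤ × ℤ)} {F : Finset (Sym2 (ℤ × ℤ))} {f : ℕ → ℤ × ℤ} {v : ℤ × ℤ}
    (h1 : ∀ u, s(v, u) ∉ F) (h2 : v ∉ A) (h3 : ∀ j, f j ≠ v) :
    lawA A F (cns v f) = IP.In 0 (lawA A F f) := by
  unfold lawA IP.In
  rw [map_sum]
  apply sum_congr rfl
  intro ω hω
  rw [mem_powerset] at hω
  rw [Finsupp.lmapDomain_apply, Finsupp.mapDomain_single, stA_ins (fun u h => h1 u (hω h)) h2 h3]

/-! ### a sweep from the left to the right -/

/-- `Rt (off+m-1) ∘ ... ∘ Rt off` at `π/6` -/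
noncomputable def upR (off : ℕ) : ℕ → IP.M →ₗ[ℝ] IP.M
  | 0 => LinearMap.id
  | m + 1 => IP.Rt (off + m) (Real.pi / 6) ∘ₗ upR off m

/-- the front during a sweep -/
def stgU (a b : ℕ → ℤ × ℤ) (r : ℕ) : ℕ → ℤ × ℤ := fun j => if 2 * j < r then b j else a j

/-- the edges of a sweep -/
def edU (a b : ℕ → ℤ × ℤ) (r : ℕ) : Sym2 (ℤ × ℤ) := s(b (r / 2), a ((r + 1) / 2))

/-- admissible sweeps -/
structure AdmU (A : Set (ℤ × ℤ)) (a b : ℕ → ℤ × ℤ) (off top : ℕ) (F : Finset (Sym2 (ℤ × ℤ))) :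
    Prop where
  h3 : ∀ r, off ≤ r → r < top → edU a b r ∉ F
  h3' : ∀ r r', off ≤ r → r < top → off ≤ r' → r' < top → r ≠ r' → edU a b r ≠ edU a b r'
  h4 : ∀ j, off ≤ 2 * j → 2 * j < top → (∀ u, s(b j, u) ∉ F) ∧ b j ∉ A ∧
    (∀ k, k < j → b k ≠ b j) ∧ ∀ k, a k ≠ b j

theorem sweepU {A : Set (ℤ × ℤ)} {a b : ℕ → ℤ × ℤ} {off : ℕ} {F : Finset (Sym2 (ℤ × ℤ))} (m : ℕ)
    (h : AdmU A a b off (off + m) F) :
    lawA A (F ∪ (Ico off (off + m)).image (edU a b)) (stgU a b (off + m)) =
      upR off m (lawA A F (stgU a b off)) := by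
  induction m with
  | zero =>
    simp [upR]
  | succ m ih =>
    have h' : AdmU A a b off (off + m) F :=
      ⟨fun r h1 h2 => h.h3 r h1 (by omega), fun r r' h1 h2 h3 h4 => h.h3' r r' h1 (by omega) h3 (by omega),
        fun j h1 h2 => h.h4 j h1 (by omega)⟩
    set G := F ∪ (Ico off (off + m)).image (edU a b) with hG
    have e0 : F ∪ (Ico off (off + (m + 1))).image (edU a b) = insert (edU a b (off + m)) G := by
      have hI : Ico off (off + (m + 1)) = insert (off + m) (Ico off (off + m)) := by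
        ext r
        rw [mem_insert, mem_Ico, mem_Ico]
        omega
      rw [hI, image_insert, hG, union_insert]
    have e1 : upR off (m + 1) (lawA A F (stgU a b off)) =
        IP.Rt (off + m) (Real.pi / 6) (lawA A G (stgU a b (off + m))) := by
      rw [ih h']
      rfl
    have hnew : edU a b (off + m) ∉ G := by
      rw [hG, mem_union, mem_image, not_or]
      refine ⟨h.h3 _ (by omega) (by omega), ?_⟩
      rintro ⟨r, hr, he⟩
      rw [mem_Ico] at hr
      exact h.h3' r (off + m) (by omega) (by omega) (by omega) (by omega) (by omega) he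
    rw [e0, e1]
    rcases Nat.even_or_odd' (off + m) with ⟨j, hj | hj⟩
    · obtain ⟨a1, a2, a3, a4⟩ := h.h4 j (by omega) (by omega)
      have e2 : stgU a b (off + (m + 1)) = Function.update (stgU a b (off + m)) j (b j) := by
        funext k
        unfold stgU
        by_cases hk : k = j
        · subst hk
          rw [Function.update_self, if_pos (by omega)]
        · rw [Function.update_of_ne hk]
          by_cases hk2 : 2 * k < off + m
          · rw [if_pos (by omega), if_pos (by omega)]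
          · rw [if_neg (by omega), if_neg (by omega)]
      have e3 : edU a b (off + m) = s(stgU a b (off + m) j, b j) := by
        unfold edU stgU
        rw [if_neg (by omega), show (off + m) / 2 = j by omega, show (off + m + 1) / 2 = j by omega,
          Sym2.eq_swap]
      rw [e2, e3, hj]
      apply lawA_detach
      · intro u hu
        rw [hG, mem_union, mem_image] at hu
        rcases hu with hu | ⟨r, hr, he⟩
        · exact a1 u hu
        · rw [mem_Ico] at hr
          unfold edU at he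
          rw [Sym2.eq_iff] at he
          rcases he with ⟨h5, _⟩ | ⟨_, h5⟩
          · exact a3 (r / 2) (by omega) h5
          · exact a4 _ h5
      · exact a2
      · intro k
        unfold stgU
        by_cases hk : 2 * k < 2 * j
        · rw [if_pos hk]
          exact a3 k (by omega)
        · rw [if_neg hk]
          exact a4 k
    · have e2 : stgU a b (off + (m + 1)) = stgU a b (off + m) := by
        funext k
        unfold stgU
        by_cases hk2 : 2 * k < off + m
        · rw [if_pos (by omega), if_pos (by omega)]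
        · rw [if_neg (by omega), if_neg (by omega)]
      have e3 : edU a b (off + m) = s(stgU a b (off + m) j, stgU a b (off + m) (j + 1)) := by
        unfold edU stgU
        rw [if_pos (by omega), if_neg (by omega), show (off + m) / 2 = j by omega,
          show (off + m + 1) / 2 = j + 1 by omega]
      rw [e3] at hnew
      rw [e2, e3, hj]
      rw [hj] at hnew
      exact lawA_join hnew

/-- the wall may be restricted -/
lemma lawA_congr {A A' : Set (ℤ × ℤ)} {F : Finset (Sym2 (ℤ × ℤ))} {f f' : ℕ → ℤ × ℤ}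
    (h : ∀ ω, ω ⊆ F → ∀ x y, cs A ω (f x) (f y) ↔ cs A' ω (f' x) (f' y)) :
    lawA A F f = lawA A' F f' := by
  unfold lawA
  apply sum_congr rfl
  intro ω hω
  rw [mem_powerset] at hω
  congr 1
  ext x y
  exact h ω hω x y

end H47Perc.JJ
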