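import Pool.Agent.Helper63.J.LawA
import Pool.Agent.Helper53.Slit.Prob

/-!
The T-junction: the law of the lower piece.
-/

set_option autoImplicit false

namespace H47Perc.JJ
open Finset H47Perc.DS H47Perc.SL

/-- the lower part of the right wall -/
def LW (c : ℕ) : Set (ℤ × ℤ) := {z | z.1 + z.2 = 2 * c + 1 ∧ z.1 - z.2 ≤ 1}

lemma mem_LW {c : ℕ} {z : ℤ × ℤ} : z ∈ LW c ↔ z.1 + z.2 = 2 * c + 1 ∧ z.1 - z.2 ≤ 1 := Iff.rfl

/-- the front at the level `x - y = 2t+1` -/
def fJ (c t : ℕ) (k : ℕ) : ℤ × ℤ :=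
  if k ≤ c then ((k : ℤ) + t + 1, (k : ℤ) - t)
  else if k ≤ c + t then (2 * (c : ℤ) + 1 + t - k, (k : ℤ) - t) else ((c : ℤ) + 1, (c : ℤ))

/-- the front at the level `x - y = 2t+2` -/
def gJ (c t : ℕ) (k : ℕ) : ℤ × ℤ :=
  if k ≤ c then ((k : ℤ) + t + 1, (k : ℤ) - t - 1) else fJ c t (k - 1)

/-- the last front -/
def frJ (m c t : ℕ) (k : ℕ) : ℤ × ℤ :=
  if k ≤ m then ((k : ℤ) + t + 2, (k : ℤ) - t - 1) else gJ c t k

lemma fJ_le {c t k : ℕ} (h : k ≤ c) : fJ c t k = ((k : ℤ) + t + 1, (k : ℤ) - t) := if_pos h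
lemma fJ_mid {c t k : ℕ} (h : c < k) (h' : k ≤ c + t) :
    fJ c t k = (2 * (c : ℤ) + 1 + t - k, (k : ℤ) - t) := by
  unfold fJ
  rw [if_neg (by omega), if_pos h']
lemma fJ_gt {c t k : ℕ} (h : c + t < k) : fJ c t k = ((c : ℤ) + 1, (c : ℤ)) := by
  unfold fJ
  rw [if_neg (by omega), if_neg (by omega)]
lemma gJ_le {c t k : ℕ} (h : k ≤ c) : gJ c t k = ((k : ℤ) + t + 1, (k : ℤ) - t - 1) := if_pos h
lemma gJ_gt {c t k : ℕ} (h : c < k) : gJ c t k = fJ c t (k - 1) := if_neg (by omega)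

lemma fJ_zero (c : ℕ) : fJ c 0 = fr c 0 := by
  funext k
  unfold fJ fr
  by_cases h : k ≤ c
  · rw [if_pos h, min_eq_left (by exact_mod_cast h)]
    ext <;> simp
  · rw [if_neg h, if_neg (by omega), min_eq_right (by exact_mod_cast (by omega : c ≤ k))]
    ext <;> simp

/-- all sites are at a level at most `2t+1` -/
lemma fJ_level (c t k : ℕ) : (fJ c t k).1 - (fJ c t k).2 ≤ 2 * t + 1 := by
  unfold fJ
  split_ifs <;> simp only <;> omega

lemma gJ_level (c t k : ℕ) : (gJ c t k).1 - (gJ c t k).2 ≤ 2 * t + 2 := by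
  unfold gJ
  split_ifs
  · simp only
    omega
  · have := fJ_level c t (k - 1)
    omega

/-- the edges between the levels `2t+1` and `2t+2` -/
def U1 (c t : ℕ) : Finset (Sym2 (ℤ × ℤ)) :=
  (Ico 1 (1 + (2 * c + 1))).image (edU (cns ((t : ℤ) + 1, -(t : ℤ) - 1) (fJ c t)) (gJ c t))

/-- the edges between the levels `2t+2` and `2t+3`, the first `r` of them -/
def U2 (c t r : ℕ) : Finset (Sym2 (ℤ × ℤ)) :=
  (Ico 0 (0 + r)).image (edU (gJ c t) (fJ c (t + 1)))

lemma adm1 (c t : ℕ) {F : Finset (Sym2 (ℤ × ℤ))} (hF : ∀ u v, s(u, v) ∈ F → u.1 - u.2 ≤ 2 * t + 1) :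
    AdmU (LW c) (cns ((t : ℤ) + 1, -(t : ℤ) - 1) (fJ c t)) (gJ c t) 1 (1 + (2 * c + 1)) F where
  h3 := by
    intro r h1 h2 h
    unfold edU at h
    have := hF _ _ h
    rw [gJ_le (by omega)] at this
    simp only at this
    omega
  h3' := by
    intro r r' h1 h2 h1' h2' hne he
    unfold edU cns at he
    rw [gJ_le (by omega), gJ_le (by omega), if_neg (by omega), if_neg (by omega), fJ_le (by omega),
      fJ_le (by omega), Sym2.eq_iff, Prod.mk.injEq, Prod.mk.injEq, Prod.mk.injEq, Prod.mk.injEq] at he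
    omega
  h4 := by
    intro j h1 h2
    rw [gJ_le (by omega)]
    refine ⟨?_, ?_, ?_, ?_⟩
    · intro u h
      have := hF _ _ h
      simp only at this
      omega
    · rw [mem_LW]
      simp only
      omega
    · intro k hk h
      rw [gJ_le (by omega), Prod.mk.injEq] at h
      omega
    · intro k h
      unfold cns at h
      by_cases hk : k = 0
      · rw [if_pos hk, Prod.mk.injEq] at h
        omega
      · rw [if_neg hk] at h
        have := fJ_level c t (k - 1)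
        rw [h] at this
        simp only at this
        omega

lemma adm2 (c t r : ℕ) (hr : r ≤ 2 * c + 1) {F : Finset (Sym2 (ℤ × ℤ))}
    (hF : ∀ u v, s(u, v) ∈ F → u.1 - u.2 ≤ 2 * t + 2) :
    AdmU (LW c) (gJ c t) (fJ c (t + 1)) 0 (0 + r) F where
  h3 := by
    intro r h1 h2 h
    unfold edU at h
    have := hF _ _ h
    rw [fJ_le (by omega)] at this
    push_cast at this
    omega
  h3' := by
    intro r r' h1 h2 h1' h2' hne he
    unfold edU at he
    rw [fJ_le (by omega), fJ_le (by omega), gJ_le (by omega), gJ_le (by omega), Sym2.eq_iff,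
      Prod.mk.injEq, Prod.mk.injEq, Prod.mk.injEq, Prod.mk.injEq] at he
    push_cast at he
    omega
  h4 := by
    intro j h1 h2
    rw [fJ_le (by omega)]
    refine ⟨?_, ?_, ?_, ?_⟩
    · intro u h
      have := hF _ _ h
      push_cast at this
      omega
    · rw [mem_LW]
      push_cast
      omega
    · intro k hk h
      rw [fJ_le (by omega), Prod.mk.injEq] at h
      omega
    · intro k h
      have := gJ_level c t k
      rw [h] at this
      push_cast at this
      omega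

lemma stgU1_start (c t : ℕ) : stgU (cns ((t : ℤ) + 1, -(t : ℤ) - 1) (fJ c t)) (gJ c t) 1 =
    cns ((t : ℤ) + 1, -(t : ℤ) - 1) (fJ c t) := by
  funext k
  unfold stgU
  by_cases hk : k = 0
  · subst hk
    rw [if_pos (by omega), gJ_le (by omega)]
    unfold cns
    rw [if_pos rfl]
    ext <;> simp <;> ring
  · rw [if_neg (by omega)]

lemma stgU1_end (c t : ℕ) : stgU (cns ((t : ℤ) + 1, -(t : ℤ) - 1) (fJ c t)) (gJ c t)
    (1 + (2 * c + 1)) = gJ c t := by
  funext k
  unfold stgU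
  by_cases hk : k ≤ c
  · rw [if_pos (by omega)]
  · rw [if_neg (by omega), gJ_gt (by omega)]
    unfold cns
    rw [if_neg (by omega)]

lemma stgU2_start (c t : ℕ) : stgU (gJ c t) (fJ c (t + 1)) 0 = gJ c t := by
  funext k
  unfold stgU
  rw [if_neg (by omega)]

lemma stgU2_end (c t : ℕ) : stgU (gJ c t) (fJ c (t + 1)) (0 + (2 * c + 1)) = fJ c (t + 1) := by
  funext k
  unfold stgU
  by_cases hk : k ≤ c
  · rw [if_pos (by omega)]
  · rw [if_neg (by omega), gJ_gt (by omega)]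
    by_cases h1 : k ≤ c + (t + 1)
    · rw [fJ_mid (by omega) h1]
      by_cases h2 : k - 1 ≤ c
      · rw [fJ_le h2]
        ext <;> simp only <;> push_cast <;> omega
      · rw [fJ_mid (by omega) (by omega)]
        ext <;> simp only <;> push_cast <;> omega
    · rw [fJ_gt (by omega), fJ_gt (by omega)]

lemma stgU2_endm (m c t : ℕ) (hm : m ≤ c) :
    stgU (gJ c t) (fJ c (t + 1)) (0 + (2 * m + 1)) = frJ m c t := by
  funext k
  unfold stgU frJ
  by_cases hk : k ≤ m
  · rw [if_pos (by omega), if_pos hk, fJ_le (by omega)]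
    ext <;> simp only <;> push_cast <;> ring
  · rw [if_neg (by omega), if_neg hk]

/-- one double row without the wall, from the left to the right -/
noncomputable def DD (c : ℕ) : IP.M →ₗ[ℝ] IP.M :=
  upR 0 (2 * c + 1) ∘ₗ upR 1 (2 * c + 1) ∘ₗ IP.In 0

lemma row1 (c t : ℕ) {F : Finset (Sym2 (ℤ × ℤ))} (hF : ∀ u v, s(u, v) ∈ F → u.1 - u.2 ≤ 2 * t + 1) :
    upR 1 (2 * c + 1) (IP.In 0 (lawA (LW c) F (fJ c t))) = lawA (LW c) (F ∪ U1 c t) (gJ c t) := by
  have h1 : lawA (LW c) F (cns ((t : ℤ) + 1, -(t : ℤ) - 1) (fJ c t)) =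
      IP.In 0 (lawA (LW c) F (fJ c t)) := by
    apply lawA_ins
    · intro u h
      have := hF _ _ h
      simp only at this
      omega
    · rw [mem_LW]
      simp only
      omega
    · intro k h
      have := fJ_level c t k
      rw [h] at this
      simp only at this
      omega
  have h2 := sweepU (2 * c + 1) (adm1 c t hF)
  rw [stgU1_start, stgU1_end, h1] at h2
  exact h2.symm

lemma U1_level {c t : ℕ} {u v : ℤ × ℤ} (h : s(u, v) ∈ U1 c t) : u.1 - u.2 ≤ 2 * t + 2 := by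
  unfold U1 at h
  rw [mem_image] at h
  obtain ⟨r, hr, he⟩ := h
  rw [mem_Ico] at hr
  unfold edU cns at he
  rw [gJ_le (by omega), if_neg (by omega), Sym2.eq_iff] at he
  rcases he with ⟨rfl, rfl⟩ | ⟨rfl, rfl⟩
  · simp only
    omega
  · have := fJ_level c t ((r + 1) / 2 - 1)
    omega

lemma row2 (c t : ℕ) {F : Finset (Sym2 (ℤ × ℤ))} (hF : ∀ u v, s(u, v) ∈ F → u.1 - u.2 ≤ 2 * t + 2) :
    upR 0 (2 * c + 1) (lawA (LW c) F (gJ c t)) =
      lawA (LW c) (F ∪ U2 c t (2 * c + 1)) (fJ c (t + 1)) := by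
  have h2 := sweepU (2 * c + 1) (adm2 c t (2 * c + 1) le_rfl hF)
  rw [stgU2_start, stgU2_end] at h2
  exact h2.symm

lemma row3 (m c t : ℕ) (hm : m ≤ c) {F : Finset (Sym2 (ℤ × ℤ))}
    (hF : ∀ u v, s(u, v) ∈ F → u.1 - u.2 ≤ 2 * t + 2) :
    upR 0 (2 * m + 1) (lawA (LW c) F (gJ c t)) =
      lawA (LW c) (F ∪ U2 c t (2 * m + 1)) (frJ m c t) := by
  have h2 := sweepU (2 * m + 1) (adm2 c t (2 * m + 1) (by omega) hF)
  rw [stgU2_start, stgU2_endm m c t hm] at h2
  exact h2.symm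

/-! ### the edges -/

lemma edges1 (c t : ℕ) {a : ℤ} (ha : a ≤ 2 * t + 1) :
    edgesIn (reg c a (2 * t + 1)) ∪ U1 c t = edgesIn (reg c a (2 * t + 2)) := by
  ext e
  constructor
  · intro h
    rw [mem_union] at h
    rcases h with h | h
    · refine edgesIn_mono ?_ h
      intro z hz
      rw [mem_reg] at hz ⊢
      omega
    · unfold U1 at h
      rw [mem_image] at h
      obtain ⟨r, hr, rfl⟩ := h
      rw [mem_Ico] at hr
      unfold edU cns
      rw [gJ_le (by omega), if_neg (by omega), fJ_le (by omega), mem_edgesIn, mem_reg, mem_reg]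
      simp only
      refine ⟨by omega, by omega, ?_⟩
      rcases Nat.even_or_odd' r with ⟨k, hk | hk⟩
      · right
        simp only
        have e1 : ((r / 2 : ℕ) : ℤ) = k := by omega
        have e2 : (((r + 1) / 2 - 1 : ℕ) : ℤ) = k - 1 := by omega
        rw [e1, e2]
        refine ⟨by ring, ?_⟩
        rw [show (k:ℤ) + t + 1 - (k - 1 + t + 1) = 1 by ring]
        simp
      · left
        simp only
        have e1 : ((r / 2 : ℕ) : ℤ) = k := by omega
        have e2 : (((r + 1) / 2 - 1 : ℕ) : ℤ) = k := by omega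
        rw [e1, e2]
        refine ⟨rfl, ?_⟩
        rw [show (k:ℤ) - t - 1 - (k - t) = -1 by ring]
        simp
  · intro h
    rw [mem_union]
    rcases edge_cases h with ⟨x, y, rfl⟩ | ⟨x, y, rfl⟩
    · rw [hE_mem, mem_reg, mem_reg] at h
      simp only at h
      by_cases h1 : x - y + 1 ≤ 2 * t + 1
      · left
        rw [hE_mem, mem_reg, mem_reg]
        simp only
        omega
      · right
        unfold U1
        rw [mem_image]
        obtain ⟨k, hk⟩ : ∃ k : ℕ, x + y = 2 * (k:ℤ) - 1 := ⟨((x + y + 1) / 2).toNat, by omega⟩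
        have hk1 : 1 ≤ k := by omega
        refine ⟨2 * k, by rw [mem_Ico]; omega, ?_⟩
        unfold edU hE cns
        rw [if_neg (by omega), show 2 * k / 2 = k by omega, show (2 * k + 1) / 2 - 1 = k - 1 by omega,
          gJ_le (by omega), fJ_le (by omega), Sym2.eq_swap]
        have e1 : ((k - 1 : ℕ) : ℤ) + t + 1 = x := by omega
        have e2 : ((k - 1 : ℕ) : ℤ) - t = y := by omega
        have e3 : (k:ℤ) + t + 1 = x + 1 := by omega
        have e4 : (k:ℤ) - t - 1 = y := by omega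
        rw [e1, e2, e3, e4]
    · rw [vE_mem, mem_reg, mem_reg] at h
      simp only at h
      by_cases h1 : x - y ≤ 2 * t + 1
      · left
        rw [vE_mem, mem_reg, mem_reg]
        simp only
        omega
      · right
        unfold U1
        rw [mem_image]
        obtain ⟨k, hk⟩ : ∃ k : ℕ, x + y = 2 * (k:ℤ) := ⟨((x + y) / 2).toNat, by omega⟩
        refine ⟨2 * k + 1, by rw [mem_Ico]; omega, ?_⟩
        unfold edU vE cns
        rw [if_neg (by omega), show (2 * k + 1) / 2 = k by omega,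
          show (2 * k + 1 + 1) / 2 - 1 = k by omega, gJ_le (by omega), fJ_le (by omega)]
        have e1 : (k:ℤ) + t + 1 = x := by omega
        have e2 : (k:ℤ) - t - 1 = y := by omega
        have e4 : (k:ℤ) - t = y + 1 := by omega
        rw [e1, e2, e4]

/-- the edges between the levels `2t+2` and `2t+3`, `u ≤ 2m+1` -/
lemma U2_eq (m c t : ℕ) (hm : m ≤ c) : U2 c t (2 * m + 1) = edgesIn (reg m (2 * t + 2) (2 * t + 3)) := by
  ext e
  constructor
  · intro h
    unfold U2 at h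
    rw [mem_image] at h
    obtain ⟨r, hr, rfl⟩ := h
    rw [mem_Ico] at hr
    unfold edU
    rw [gJ_le (by omega), fJ_le (by omega), mem_edgesIn, mem_reg, mem_reg]
    push_cast
    refine ⟨by omega, by omega, ?_⟩
    rcases Nat.even_or_odd' r with ⟨k, hk | hk⟩
    · right
      simp only
      have e1 : (r : ℤ) / 2 = k := by omega
      have e2 : ((r : ℤ) + 1) / 2 = k := by omega
      rw [e1, e2]
      refine ⟨by ring, ?_⟩
      rw [show (k:ℤ) + (t + 1) + 1 - (k + t + 1) = 1 by ring]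
      simp
    · left
      simp only
      have e1 : (r : ℤ) / 2 = k := by omega
      have e2 : ((r : ℤ) + 1) / 2 = k + 1 := by omega
      rw [e1, e2]
      refine ⟨by ring, ?_⟩
      rw [show (k:ℤ) - (t + 1) - (k + 1 - t - 1) = -1 by ring]
      simp
  · intro h
    unfold U2
    rw [mem_image]
    rcases edge_cases h with ⟨x, y, rfl⟩ | ⟨x, y, rfl⟩
    · rw [hE_mem, mem_reg, mem_reg] at h
      simp only at h
      obtain ⟨k, hk⟩ : ∃ k : ℕ, x + y = 2 * (k:ℤ) := ⟨((x + y) / 2).toNat, by omega⟩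
      refine ⟨2 * k, by rw [mem_Ico]; omega, ?_⟩
      unfold edU hE
      rw [show 2 * k / 2 = k by omega, show (2 * k + 1) / 2 = k by omega,
        gJ_le (by omega), fJ_le (by omega), Sym2.eq_swap]
      push_cast
      have e1 : (k:ℤ) + t + 1 = x := by omega
      have e2 : (k:ℤ) - t - 1 = y := by omega
      have e3 : (k:ℤ) + (t + 1) + 1 = x + 1 := by omega
      have e4 : (k:ℤ) - (t + 1) = y := by omega
      rw [e1, e2, e3, e4]
    · rw [vE_mem, mem_reg, mem_reg] at h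
      simp only at h
      obtain ⟨k, hk⟩ : ∃ k : ℕ, x + y = 2 * (k:ℤ) + 1 := ⟨((x + y) / 2).toNat, by omega⟩
      refine ⟨2 * k + 1, by rw [mem_Ico]; omega, ?_⟩
      unfold edU vE
      rw [show (2 * k + 1) / 2 = k by omega,
        show (2 * k + 1 + 1) / 2 = k + 1 by omega, gJ_le (by omega), fJ_le (by omega)]
      push_cast
      have e1 : (k:ℤ) + (t + 1) + 1 = x := by omega
      have e2 : (k:ℤ) - (t + 1) = y := by omega
      have e3 : (k:ℤ) + 1 + t + 1 = x := by omega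
      have e4 : (k:ℤ) + 1 - t - 1 = y + 1 := by omega
      rw [e1, e2, e3, e4]

lemma edges2 (c t : ℕ) {a : ℤ} (ha : a ≤ 2 * t + 1) :
    edgesIn (reg c a (2 * t + 2)) ∪ U2 c t (2 * c + 1) = edgesIn (reg c a (2 * t + 3)) := by
  rw [U2_eq c c t le_rfl]
  ext e
  rw [mem_union]
  induction e using Sym2.ind with
  | _ u v =>
    rw [mem_edgesIn, mem_edgesIn, mem_edgesIn, mem_reg, mem_reg, mem_reg, mem_reg, mem_reg, mem_reg]
    constructor
    · rintro (⟨h1, h2, h3⟩ | ⟨h1, h2, h3⟩)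
      · exact ⟨by omega, by omega, h3⟩
      · exact ⟨by omega, by omega, h3⟩
    · rintro ⟨h1, h2, h3⟩
      have h5 := adj_level h3
      by_cases h4 : u.1 - u.2 ≤ 2 * t + 2 ∧ v.1 - v.2 ≤ 2 * t + 2
      · exact Or.inl ⟨by omega, by omega, h3⟩
      · exact Or.inr ⟨by omega, by omega, h3⟩

lemma reg_level {c : ℕ} {a b : ℤ} {u v : ℤ × ℤ} (h : s(u, v) ∈ edgesIn (reg c a b)) :
    u.1 - u.2 ≤ b := by
  rw [mem_edgesIn, mem_reg] at h
  exact h.1.2.2.2

theorem DD_step (c t : ℕ) {a : ℤ} (ha : a ≤ 2 * t + 1) :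
    DD c (lawA (LW c) (edgesIn (reg c a (2 * t + 1))) (fJ c t)) =
      lawA (LW c) (edgesIn (reg c a (2 * (t + 1 : ℕ) + 1))) (fJ c (t + 1)) := by
  unfold DD
  rw [LinearMap.comp_apply, LinearMap.comp_apply, row1 c t (fun u v h => reg_level h), edges1 c t ha,
    row2 c t (fun u v h => reg_level h), edges2 c t ha]
  push_cast
  congr 3

theorem DD_pow (c q : ℕ) {a : ℤ} (ha : a ≤ 1) :
    (DD c ^ q) (lawA (LW c) (edgesIn (reg c a 1)) (fJ c 0)) =
      lawA (LW c) (edgesIn (reg c a (2 * q + 1))) (fJ c q) := by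
  induction q with
  | zero =>
    rw [pow_zero]
    push_cast
    simp
  | succ q ih =>
    rw [pow_succ', Module.End.mul_apply, ih, DD_step c q (by omega)]

lemma csL_le_cw (c : ℕ) (ω : Finset (Sym2 (ℤ × ℤ))) : cs (LW c) ω ≤ cw (2 * c + 1) ω := by
  rw [cs_le_iff]
  exact ⟨fun u v h => cw_edge h, fun u v h1 h2 => cw_wall h1.1 h2.1⟩

lemma csL_of_cw {c : ℕ} {ω : Finset (Sym2 (ℤ × ℤ))}
    (hω : ∀ u v : ℤ × ℤ, s(u, v) ∈ ω → u.1 - u.2 ≤ 1) {x y : ℤ × ℤ} (hx : x.1 - x.2 ≤ 1)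
    (hy : y.1 - y.2 ≤ 1) (h : cw (2 * c + 1) ω x y) : cs (LW c) ω x y := by
  classical
  set r : ℤ × ℤ → ℤ × ℤ := fun z =>
    if z.1 + z.2 = 2 * c + 1 ∧ 1 < z.1 - z.2 then ((c : ℤ) + 1, (c : ℤ)) else z with hr
  have hr1 : ∀ z : ℤ × ℤ, z.1 - z.2 ≤ 1 → r z = z := by
    intro z hz
    simp only [hr]
    rw [if_neg (by omega)]
  have hr2 : ∀ z : ℤ × ℤ, z.1 + z.2 = 2 * c + 1 → r z ∈ LW c := by
    intro z hz
    simp only [hr]
    by_cases h1 : 1 < z.1 - z.2
    · rw [if_pos ⟨hz, h1⟩, mem_LW]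
      simp only
      omega
    · rw [if_neg (fun h' => h1 h'.2), mem_LW]
      omega
  have hle : cw (2 * c + 1) ω ≤ Setoid.comap r (cs (LW c) ω) := by
    rw [cw_le_iff]
    constructor
    · intro u v huv
      rw [Setoid.comap_rel, hr1 u (hω u v huv), hr1 v (hω v u (by rw [Sym2.eq_swap]; exact huv))]
      exact cs_edge huv
    · intro u v hu hv
      rw [Setoid.comap_rel]
      exact cs_wall (hr2 u hu) (hr2 v hv)
  have h2 := hle h
  rw [Setoid.comap_rel, hr1 x hx, hr1 y hy] at h2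
  exact h2

/-- the wall may be restricted to its lower part -/
lemma lawA_low (c : ℕ) (a : ℤ) :
    lawA (LW c) (edgesIn (reg c a 1)) (fJ c 0) = law (2 * c + 1) (edgesIn (reg c a 1)) (fr c 0) := by
  rw [fJ_zero]
  unfold lawA law
  refine Finset.sum_congr rfl (fun ω hω => ?_)
  rw [mem_powerset] at hω
  congr 1
  ext x y
  have hl : ∀ k, (fr c 0 k).1 - (fr c 0 k).2 ≤ 1 := by
    intro k
    rw [fr_zero]
    simp only
    omega
  exact ⟨fun h => csL_le_cw c ω h, fun h => csL_of_cw (fun u v huv => (edge_reg hω huv).2.2.2)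
    (hl x) (hl y) h⟩

/-- the edges of the lower piece -/
noncomputable def lowE (m c q : ℕ) (a : ℤ) : Finset (Sym2 (ℤ × ℤ)) :=
  edgesIn (reg c a (2 * q + 2)) ∪ edgesIn (reg m (2 * q + 2) (2 * q + 3))

/-- **The law of the lower piece.** -/
theorem law_low (m c q : ℕ) (hm : m ≤ c) {a : ℤ} (ha : a ≤ 1) :
    lawA (LW c) (lowE m c q a) (frJ m c q) =
      upR 0 (2 * m + 1) (upR 1 (2 * c + 1) (IP.In 0 ((DD c ^ q)
        (law (2 * c + 1) (edgesIn (reg c a 1)) (fr c 0))))) := by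
  rw [← lawA_low, DD_pow c q ha, row1 c q (fun u v h => reg_level h), edges1 c q (by omega),
    row3 m c q hm (fun u v h => reg_level h), U2_eq m c q hm]
  rfl

end H47Perc.JJ
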